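import Mathlib
import Pool.Agent.Helper894.Three.Final

set_option autoImplicit false

namespace Pool.Agent.Results.MP_158692_nt.LowerExponent862

open Pool.Agent.Helper894.Three in
/-- For every integer `a` not divisible by 3 one has `π_a(x) ≥ x ^ 0.862` for all sufficiently
large real `x`, where `π_a(x)` counts the integers `n` with `|n| ≤ x` whose orbit under the 3x+1 map
contains `a`. -/
theorem result :
    ∀ a : ℤ, a % 3 ≠ 0 →
      ∀ᶠ x : ℝ in Filter.atTop,
        x ^ (0.862 : ℝ) ≤ (Set.ncard {n : ℤ | |(n : ℝ)| ≤ x ∧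
          ∃ k : ℕ, (fun m : ℤ => if m % 2 = 0 then m / 2 else (3 * m + 1) / 2)^[k] n = a} : ℝ) := by
  intro a ha
  filter_upwards [main_all (a := a) (by omega)] with x hx
  have e : {n : ℤ | |(n : ℝ)| ≤ x ∧
      ∃ k : ℕ, (fun m : ℤ => if m % 2 = 0 then m / 2 else (3 * m + 1) / 2)^[k] n = a} = DX a x := by
    ext n
    exact and_comm
  rw [e]
  exact hx

end Pool.Agent.Results.MP_158692_nt.LowerExponent862
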